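import Mathlib
import Pool.Agent.H23.RicciDefs
import Pool.Agent.H23.RicciProof

set_option autoImplicit false

namespace Pool.Agent.Results.MP_1a9240_co.LeafAttachment

open Pool.Agent.H23.Ricci

/-- There are a finite tree `T` and a vertex `v` of degree 3 in `T` such that attaching a leaf
at `v` strictly lowers the largest eigenvalue of the Ricci matrix. -/
theorem result : ∃ (V : Type) (_ : Fintype V) (_ : DecidableEq V) (T : SimpleGraph V)
    (_ : DecidableRel T.Adj) (v : V), T.IsTree ∧ T.degree v = 3 ∧
      lambdaMax (ricciMatrix (attachLeaf T v)) < lambdaMax (ricciMatrix T) := by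
  refine ⟨Vt, inferInstance, inferInstance, tree, inferInstance, root, tree_isTree, ?_, ?_⟩
  · exact_mod_cast degree_root
  · refine lt_of_le_of_lt upper (lt_of_lt_of_le ?_ lower)
    norm_num

end Pool.Agent.Results.MP_1a9240_co.LeafAttachment
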